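import Pool.Agent.Helper39.SQ.Goals

set_option autoImplicit false

/-!
# Packet SQ-THE (MP_9b2a83_an): the threshold
-/

namespace Pool.Agent.Helper63.SQ

open Pool.Agent.Helper39.SQ

lemma aux1 {D : ℕ} (hD : 2 ≤ D) : (D + 2) * D ≤ 2 * 2 ^ D := by
  induction D, hD using Nat.le_induction with
  | base => norm_num
  | succ n hn ih =>
    rw [pow_succ]
    nlinarith

theorem THE : G_COUNT → G_CHO → G_THE := by
  intro hCount hCho d D N l h K g hd hD hl hh hK hg
  have hl1 : 1 ≤ l := by
    rw [hl]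
    exact Nat.log_pos (by norm_num) (by omega)
  have hpl : 2 ^ l ≤ D + 1 := by
    rw [hl]
    exact Nat.pow_log_le_self 2 (by omega)
  have hpl1 : D + 1 < 2 ^ (l + 1) := by
    rw [hl]
    exact Nat.lt_pow_succ_log_self (by norm_num) _
  have hlD : l ≤ D := by
    have := Nat.lt_two_pow_self (n := l)
    omega
  have hlK : 2 * D + 3 < l * K := by
    rw [hK]
    exact Nat.lt_mul_div_succ _ hl1
  have hK4 : K ≤ 2 * D + 4 := by
    rw [hK]
    have := Nat.div_le_self (2 * D + 3) l
    omega
  have hKl : K * l ≤ 2 * D + 3 + l := by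
    rw [hK, add_mul, one_mul]
    have := Nat.div_mul_le_self (2 * D + 3) l
    omega
  refine ⟨?_, ?_, ?_⟩
  · have h1 : (D + 1) ^ (d * K) ≤ 2 ^ (2 * l * (d * K)) := by
      rw [pow_mul 2 (2 * l) (d * K)]
      apply Nat.pow_le_pow_left
      refine hpl1.le.trans (Nat.pow_le_pow_right (by norm_num) (by omega))
    have h2 : 3 * D * d + 2 * d + 6 ≤ 2 * l * (d * K) := by
      have h3 : 2 * l * (d * K) = 2 * d * (l * K) := by ring
      rw [h3]
      have h4 : 2 * d * (2 * D + 4) ≤ 2 * d * (l * K) := Nat.mul_le_mul_left _ (by omega)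
      refine le_trans ?_ h4
      nlinarith
    calc (D + 1) ^ (d * K) * 2 ^ (3 * D * d + 2 * d + 6)
        ≤ 2 ^ (2 * l * (d * K)) * 2 ^ (2 * l * (d * K)) :=
          Nat.mul_le_mul h1 (Nat.pow_le_pow_right (by norm_num) h2)
      _ = 2 ^ (h * K) := by
          rw [← pow_add, hh]
          congr 1
          ring
  · have : (K + 1) * l = K * l + l := by ring
    rw [this]
    omega
  · intro a ha
    have h0 := hCount d D N h (K * g) (by omega) (by omega) a ha
    have hG1 : K * g * 2 ^ D ≤ (D + 2) * d := by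
      have h1 : K * g * 2 ^ (D + 1) ≤ K * d := by
        rw [mul_assoc]
        exact Nat.mul_le_mul_left _ hg
      have h2 : K * d ≤ (2 * D + 4) * d := Nat.mul_le_mul_right _ hK4
      rw [pow_succ] at h1
      have h3 : K * g * (2 ^ D * 2) = 2 * (K * g * 2 ^ D) := by ring
      have h4 : (2 * D + 4) * d = 2 * ((D + 2) * d) := by ring
      omega
    have hG2 : K * g * D ≤ 2 * d := by
      have hp : 0 < 2 ^ D := by positivity
      apply Nat.le_of_mul_le_mul_right _ hp
      calc K * g * D * 2 ^ D = (K * g * 2 ^ D) * D := by ring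
        _ ≤ ((D + 2) * d) * D := Nat.mul_le_mul_right _ hG1
        _ = ((D + 2) * D) * d := by ring
        _ ≤ (2 * 2 ^ D) * d := Nat.mul_le_mul_right _ (aux1 hD)
        _ = 2 * d * 2 ^ D := by ring
    have hDG : D ^ (K * g) ≤ 4 ^ d := by
      calc D ^ (K * g) ≤ (2 ^ D) ^ (K * g) := Nat.pow_le_pow_left (Nat.lt_two_pow_self (n := D)).le _
        _ = 2 ^ (K * g * D) := by rw [← pow_mul]; congr 1; ring
        _ ≤ 2 ^ (2 * d) := Nat.pow_le_pow_right (by norm_num) hG2
        _ = 4 ^ d := by rw [pow_mul]; norm_num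
    have hch : (h + K * g * D + d - 1).choose (d - 1) ≤ (d * (4 * l + 3) - 1).choose (d - 1) := by
      apply Nat.choose_le_choose
      have : d * (4 * l + 3) = 4 * d * l + 3 * d := by ring
      rw [this, hh]
      omega
    have hcho := hCho d (4 * l + 3) (by omega) (by omega)
    have hch2 : (d * (4 * l + 3) - 1).choose (d - 1) ≤ 3 ^ d * (4 * l + 3) ^ (d - 1) := by
      have hm : 0 < 4 * l + 3 := by omega
      apply Nat.le_of_mul_le_mul_left _ hm
      refine hcho.trans (le_of_eq ?_)
      obtain ⟨e, rfl⟩ : ∃ e, d = e + 1 := ⟨d - 1, by omega⟩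
      simp only [Nat.add_sub_cancel]
      rw [mul_pow, pow_succ (4 * l + 3) e]
      ring
    have hch3 : (4 * l + 3) ^ (d - 1) ≤ 7 ^ (d - 1) * l ^ (d - 1) := by
      rw [← mul_pow]
      exact Nat.pow_le_pow_left (by omega) _
    have hlpos : 0 < l ^ (d - 1) := by positivity
    calc cnt d D N (K * g) a
        ≤ 2 ^ d * D ^ (K * g) * (h + K * g * D + d - 1).choose (d - 1) := h0
      _ ≤ 2 ^ d * 4 ^ d * (3 ^ d * (7 ^ (d - 1) * l ^ (d - 1))) := by
          apply Nat.mul_le_mul
          · exact Nat.mul_le_mul_left _ hDG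
          · exact (hch.trans hch2).trans (Nat.mul_le_mul_left _ hch3)
      _ ≤ 2 ^ d * 4 ^ d * (3 ^ d * (7 ^ d * l ^ (d - 1))) := by
          apply Nat.mul_le_mul_left
          apply Nat.mul_le_mul_left
          apply Nat.mul_le_mul_right
          exact Nat.pow_le_pow_right (by norm_num) (by omega)
      _ = 168 ^ d * l ^ (d - 1) := by
          have : (168 : ℕ) = 2 * 4 * 3 * 7 := by norm_num
          rw [this, mul_pow, mul_pow, mul_pow]
          ring
      _ < 2 * 168 ^ d * l ^ (d - 1) := by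
          have hp : 0 < 168 ^ d * l ^ (d - 1) := by positivity
          have : 2 * 168 ^ d * l ^ (d - 1) = 2 * (168 ^ d * l ^ (d - 1)) := by ring
          rw [this]
          omega

end Pool.Agent.Helper63.SQ
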